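import Pool.Agent.Helper17.RS.Sheet
import Pool.Agent.Helper97.RK.Fin5

/-! # Row GEN of the sheet for ranks six and seven (MP_798d7d_nt): from sizes `N` to heights `H` -/

set_option autoImplicit false

namespace Pool.Helper17.RS

open Pool.Agent.Helper97.RK (cur NS fin_nsfin)

theorem nr_eq (r : ℕ) (H : ℝ) : NR r H = (NS r H).ncard := by
  rfl

/-- the pairs of `RS r C N` have height at most `27 C³ N¹²` -/
theorem gen_subset (r : ℕ) (C : ℤ) (hC : 1 ≤ C) (N : ℕ) (H : ℝ)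
    (hH : 27 * (C : ℝ) ^ 3 * (N : ℝ) ^ 12 ≤ H) : RS r C N ⊆ NS r H := by
  rintro ⟨A, B⟩ ⟨h1, h2, h3, h4, h5⟩
  simp only at h1 h2 h3 h4 h5
  refine ⟨h1, h2, ?_, h5⟩
  have hN : (0 : ℤ) ≤ N := by positivity
  have hz : (max (4 * |A| ^ 3) (27 * B ^ 2) : ℤ) ≤ 27 * C ^ 3 * (N : ℤ) ^ 12 := by
    apply max_le
    · have e1 : |A| ^ 3 ≤ (C * (N : ℤ) ^ 4) ^ 3 := pow_le_pow_left₀ (abs_nonneg A) h3 3
      have e2 : 0 ≤ C ^ 3 * (N : ℤ) ^ 12 := by positivity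
      nlinarith [e1, e2]
    · have e1 : B ^ 2 ≤ (C * (N : ℤ) ^ 6) ^ 2 := by
        rw [← sq_abs B]
        exact pow_le_pow_left₀ (abs_nonneg B) h4 2
      have e2 : (C * (N : ℤ) ^ 6) ^ 2 ≤ C ^ 3 * (N : ℤ) ^ 12 := by
        have e3 : 0 ≤ (C - 1) * (C ^ 2 * (N : ℤ) ^ 12) :=
          mul_nonneg (by linarith) (by positivity)
        nlinarith [e3]
      nlinarith [e1, e2]
  have hz' : ((max (4 * |A| ^ 3) (27 * B ^ 2) : ℤ) : ℝ) ≤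
      ((27 * C ^ 3 * (N : ℤ) ^ 12 : ℤ) : ℝ) := by exact_mod_cast hz
  refine hz'.trans (le_trans (le_of_eq ?_) hH)
  push_cast
  ring

/-- GEN. -/
theorem st_GEN : ST_GEN := by
  intro r C hC e c he hc N0 h
  have hC0 : (0 : ℝ) < (C : ℝ) := by
    have : (1 : ℝ) ≤ (C : ℝ) := by exact_mod_cast hC
    linarith
  obtain ⟨K, hK⟩ : ∃ K : ℝ, K = 27 * (C : ℝ) ^ 3 := ⟨_, rfl⟩
  have hK0 : 0 < K := by rw [hK]; positivity
  have hN0' : (0 : ℝ) < 2 * ((N0 : ℝ) + 1) := by positivity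
  refine ⟨c * (1 / 2) ^ e * K ^ (-(e / 12)), by positivity,
    K * (2 * ((N0 : ℝ) + 1)) ^ 12, fun H hH => ?_⟩
  have hH0 : 0 < H := lt_of_lt_of_le (by positivity) hH
  obtain ⟨x, hx⟩ : ∃ x : ℝ, x = (H / K) ^ ((1 : ℝ) / 12) := ⟨_, rfl⟩
  have hHK : 0 < H / K := by positivity
  have hx0 : 0 < x := by rw [hx]; positivity
  have hx12 : x ^ 12 = H / K := by
    rw [hx, ← Real.rpow_natCast, ← Real.rpow_mul hHK.le]
    norm_num
  have hx2 : 2 * ((N0 : ℝ) + 1) ≤ x := by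
    by_contra hcon
    push Not at hcon
    have h1 : x ^ 12 < (2 * ((N0 : ℝ) + 1)) ^ 12 := pow_lt_pow_left₀ hcon hx0.le (by norm_num)
    rw [hx12, div_lt_iff₀ hK0] at h1
    nlinarith [h1, hH]
  have hN0x : (N0 : ℝ) ≤ x := by
    have : (0 : ℝ) ≤ N0 := by positivity
    linarith
  have hNle : ((⌊x⌋₊ : ℕ) : ℝ) ≤ x := Nat.floor_le hx0.le
  have hN0N : N0 ≤ ⌊x⌋₊ := Nat.le_floor hN0x
  have hNge : x / 2 ≤ ((⌊x⌋₊ : ℕ) : ℝ) := by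
    have h1 := Nat.lt_floor_add_one x
    have : (0 : ℝ) ≤ N0 := by positivity
    linarith
  have hpow : 27 * (C : ℝ) ^ 3 * ((⌊x⌋₊ : ℕ) : ℝ) ^ 12 ≤ H := by
    have h1 : ((⌊x⌋₊ : ℕ) : ℝ) ^ 12 ≤ x ^ 12 := pow_le_pow_left₀ (by positivity) hNle 12
    rw [hx12, le_div_iff₀ hK0, hK] at h1
    linarith
  have key := h ⌊x⌋₊ hN0N
  have hsub := gen_subset r C hC ⌊x⌋₊ H hpow
  have hcard : ((RS r C ⌊x⌋₊).ncard : ℝ) ≤ (NR r H : ℝ) := by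
    rw [nr_eq]
    exact_mod_cast Set.ncard_le_ncard hsub (fin_nsfin _ _)
  have hfin : c * (1 / 2) ^ e * K ^ (-(e / 12)) * H ^ (e / 12) = c * (x / 2) ^ e := by
    have e1 : (x / 2) ^ e = x ^ e * (1 / 2) ^ e := by
      rw [← Real.mul_rpow hx0.le (by norm_num)]
      congr 1
      ring
    have e2 : x ^ e = H ^ (e / 12) * K ^ (-(e / 12)) := by
      rw [hx, ← Real.rpow_mul hHK.le, Real.rpow_neg hK0.le, ← div_eq_mul_inv,
        ← Real.div_rpow hH0.le hK0.le]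
      congr 1
      ring
    rw [e1, e2]
    ring
  rw [hfin]
  have h3 : (x / 2) ^ e ≤ ((⌊x⌋₊ : ℕ) : ℝ) ^ e :=
    Real.rpow_le_rpow (by positivity) hNge he.le
  calc c * (x / 2) ^ e ≤ c * ((⌊x⌋₊ : ℕ) : ℝ) ^ e := mul_le_mul_of_nonneg_left h3 hc.le
    _ ≤ _ := key.trans hcard

end Pool.Helper17.RS
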