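import Pool.Agent.Helper58.RS.Bip

/-!
# Few vertices of high degree in the larger side
-/

set_option autoImplicit false
open Classical

namespace Pool.Agent.Helper58.RS

/-- the bipartite host: the first `s` vertices are joined to all others -/
def hostA (s M : ℕ) : SimpleGraph (Fin (s + M)) where
  Adj := fun x y => ((x : ℕ) < s ∧ s ≤ (y : ℕ)) ∨ ((y : ℕ) < s ∧ s ≤ (x : ℕ))
  symm := ⟨fun x y h => Or.symm h⟩
  loopless := ⟨fun x h => by
    rcases h with h | h
    · exact absurd h.1 (not_lt.2 h.2)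
    · exact absurd h.1 (not_lt.2 h.2)⟩

theorem hostA_not {m : ℕ} (H : SimpleGraph (Fin m)) (hm : 2 ≤ m) (hc : H.Connected)
    (A : Finset (Fin m)) (hbip : ∀ u v, H.Adj u v → (u ∈ A ↔ v ∉ A)) (hab : A.card ≤ Aᶜ.card)
    (hA : 1 ≤ A.card) (M t μ : ℕ) :
    ¬ Ram H (Set.range Sum.inr)ᶜ (XP (hostA (2 * (A.card - 1)) M) t μ) := by
  intro hR
  obtain ⟨s, hs⟩ : ∃ s, s = 2 * (A.card - 1) := ⟨_, rfl⟩
  rw [← hs] at hR
  obtain ⟨c, hcdef⟩ : ∃ c : Sym2 (Fin (s + M) ⊕ (Finset (Fin (s + M)) × Fin μ)) → Fin 2,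
      ∀ z, c z = if ∃ p : Fin (s + M), (p : ℕ) < A.card - 1 ∧ Sum.inl p ∈ z then 0 else 1 :=
    ⟨_, fun z => rfl⟩
  obtain ⟨i, f, hf, hfS, hfa⟩ := hR c
  have hex : ∀ u, ∃ a, f u = Sum.inl a := by
    intro u
    cases h : f u with
    | inl a => exact ⟨a, rfl⟩
    | inr w => exact absurd ⟨w, h.symm⟩ (hfS u)
  choose g hg using hex
  have hginj : Function.Injective g := by
    intro u v huv
    apply hf
    rw [hg, hg, huv]
  have hadj : ∀ u v, H.Adj u v → (((g u : ℕ) < s ∧ s ≤ (g v : ℕ)) ∨ ((g v : ℕ) < s ∧ s ≤ (g u : ℕ))) ∧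
      c s(Sum.inl (g u), Sum.inl (g v)) = i := by
    intro u v huv
    have h := hfa u v huv
    rw [hg, hg] at h
    exact h
  -- the vertices mapped to the small side
  obtain ⟨Q, hQ⟩ : ∃ Q : Finset (Fin m), ∀ u, u ∈ Q ↔ (g u : ℕ) < s :=
    ⟨Finset.univ.filter (fun u => (g u : ℕ) < s), fun u => by simp⟩
  have hQcard : A.card ≤ Q.card := by
    rcases bip_unique H hc (fun u => u ∈ A) (fun u => (g u : ℕ) < s) hbip (by
      intro u v huv
      rcases (hadj u v huv).1 with h | h
      · constructor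
        · intro _; omega
        · intro _; exact h.1
      · constructor
        · intro _; omega
        · intro h2; exact absurd h.1 h2) with h | h
    · have : A = Q := by
        ext u
        rw [hQ]; exact h u
      rw [this]
    · have : Aᶜ = Q := by
        ext u
        rw [hQ, Finset.mem_compl]
        have := h u
        tauto
      rw [← this]
      exact hab
  have hi : ∀ u ∈ Q, (i = 0 → (g u : ℕ) < A.card - 1) ∧ (i ≠ 0 → A.card - 1 ≤ (g u : ℕ)) := by
    intro u hu
    obtain ⟨v, huv⟩ := exists_nbr H hc hm u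
    obtain ⟨h1, h2⟩ := hadj u v huv
    have hus := (hQ u).1 hu
    have hvs : s ≤ (g v : ℕ) := by
      rcases h1 with h | h
      · exact h.2
      · omega
    rw [hcdef] at h2
    constructor
    · intro hi0
      by_contra hcon
      rw [if_neg (by
        rintro ⟨p, hp, hpz⟩
        rw [Sym2.mem_iff] at hpz
        rcases hpz with h | h
        · rw [Sum.inl_injective h] at hp; omega
        · rw [Sum.inl_injective h] at hp; omega), hi0] at h2
      exact absurd h2 (by decide)
    · intro hi0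
      by_contra hcon
      rw [if_pos ⟨g u, by omega, Sym2.mem_mk_left _ _⟩] at h2
      exact hi0 h2.symm
  have hQ2 : Q.card ≤ A.card - 1 := by
    by_cases hi0 : i = 0
    · have h1 : Q.card ≤ (Finset.range (A.card - 1)).card := by
        apply Finset.card_le_card_of_injOn (fun u => (g u : ℕ))
        · intro u hu
          rw [Finset.mem_coe, Finset.mem_range]
          exact (hi u hu).1 hi0
        · intro u _ v _ huv
          exact hginj (Fin.val_injective huv)
      rwa [Finset.card_range] at h1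
    · have h1 : Q.card ≤ (Finset.Ico (A.card - 1) s).card := by
        apply Finset.card_le_card_of_injOn (fun u => (g u : ℕ))
        · intro u hu
          rw [Finset.mem_coe, Finset.mem_Ico]
          exact ⟨(hi u hu).2 hi0, (hQ u).1 hu⟩
        · intro u _ v _ huv
          exact hginj (Fin.val_injective huv)
      rw [Nat.card_Ico] at h1
      omega
  omega

theorem small {m : ℕ} (H : SimpleGraph (Fin m)) (A : Finset (Fin m)) (hm : 2 ≤ m) (hc : H.Connected)
    (hbip : ∀ u v, H.Adj u v → (u ∈ A ↔ v ∉ A)) (hab : A.card ≤ Aᶜ.card)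
    (hh : (Aᶜ.filter (fun v => H.minDegree < H.degree v)).card < A.card) :
    sInf (DSet H) = 2 * (H.minDegree - 1) + 1 := by
  have hδ := min_pos H hc hm
  have hA : 1 ≤ A.card := by omega
  obtain ⟨v, hv⟩ : ∃ v, v = A.card + (2 * (H.minDegree - 1) + 1) := ⟨_, rfl⟩
  obtain ⟨R, hR⟩ := cover H.minDegree v hδ (by omega)
  obtain ⟨s, hs⟩ : ∃ s, s = 2 * (A.card - 1) := ⟨_, rfl⟩
  obtain ⟨M, hM⟩ : ∃ M, M = (R + m) * 2 ^ s := ⟨_, rfl⟩
  obtain ⟨μ, hμ⟩ : ∃ μ, μ = m * (2 * 2 ^ (2 * (H.minDegree - 1) + 1)) := ⟨_, rfl⟩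
  refine closure H hm hδ (XP (hostA s M) (2 * (H.minDegree - 1) + 1) μ) (Set.range Sum.inr) ?_ ?_ ?_
  · intro c
    have hMpos : 0 < M := by
      rw [hM]
      exact Nat.mul_pos (by omega) (by positivity)
    have x0 : Fin (s + M) := ⟨0, by omega⟩
    -- sides
    obtain ⟨P, hP⟩ : ∃ P : Finset (Fin (s + M)), ∀ x, x ∈ P ↔ (x : ℕ) < s :=
      ⟨Finset.univ.filter (fun x => (x : ℕ) < s), fun x => by simp⟩
    have hPc : P.card = s := by
      have h1 : P.image (fun x : Fin (s + M) => (x : ℕ)) = Finset.range s := by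
        ext x
        rw [Finset.mem_image, Finset.mem_range]
        constructor
        · rintro ⟨y, hy, rfl⟩
          exact (hP y).1 hy
        · intro hx
          exact ⟨⟨x, by omega⟩, (hP _).2 hx, rfl⟩
      rw [← Finset.card_image_of_injective P Fin.val_injective, h1, Finset.card_range]
    have hYc : (Pᶜ).card = M := by
      rw [Finset.card_compl, hPc, Fintype.card_fin]
      omega
    -- patterns
    have hmaps : ∀ y ∈ Pᶜ, P.filter (fun p => c s(Sum.inl p, Sum.inl y) = 0) ∈ P.powerset :=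
      fun y _ => Finset.mem_powerset.2 (Finset.filter_subset _ _)
    obtain ⟨R0, hR0, hR0c⟩ := Finset.exists_le_card_fiber_of_mul_le_card_of_maps_to (n := R + m) hmaps
      ⟨∅, Finset.empty_mem_powerset _⟩ (by
        rw [Finset.card_powerset, hPc, hYc, hM, mul_comm])
    obtain ⟨Y1, hY1⟩ : ∃ Y1, Y1 = (Pᶜ).filter
        (fun y => P.filter (fun p => c s(Sum.inl p, Sum.inl y) = 0) = R0) := ⟨_, rfl⟩
    rw [← hY1] at hR0c
    have hR0P : R0 ⊆ P := Finset.mem_powerset.1 hR0
    have hY1s : ∀ y ∈ Y1, s ≤ (y : ℕ) ∧ ∀ p ∈ P, (c s(Sum.inl p, Sum.inl y) = 0 ↔ p ∈ R0) := by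
      intro y hy
      rw [hY1, Finset.mem_filter, Finset.mem_compl, hP] at hy
      refine ⟨by omega, fun p hp => ?_⟩
      rw [← hy.2, Finset.mem_filter]
      exact ⟨fun h => ⟨hp, h⟩, fun h => h.2⟩
    have hm' : A.card + Aᶜ.card = m := by
      rw [Finset.card_add_card_compl, Fintype.card_fin]
    -- the colour classes
    obtain ⟨Pk, hPk⟩ : ∃ Pk : Fin 2 → Finset (Fin (s + M)), ∀ κ, Pk κ = if κ = 0 then R0 else P \ R0 :=
      ⟨_, fun κ => rfl⟩
    have hPkP : ∀ κ, Pk κ ⊆ P := by
      intro κ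
      rw [hPk]
      split_ifs
      · exact hR0P
      · exact Finset.sdiff_subset
    have hPkadj : ∀ κ, ∀ p ∈ Pk κ, ∀ y ∈ Y1, (hostA s M).Adj p y ∧ c s(Sum.inl p, Sum.inl y) = κ := by
      intro κ p hp y hy
      have hpP := hPkP κ hp
      refine ⟨Or.inl ⟨(hP p).1 hpP, (hY1s y hy).1⟩, ?_⟩
      have h1 := (hY1s y hy).2 p hpP
      rw [hPk] at hp
      by_cases hκ : κ = 0
      · rw [if_pos hκ] at hp
        rw [h1.2 hp, hκ]
      · rw [if_neg hκ, Finset.mem_sdiff] at hp
        have h2 : ¬ c s(Sum.inl p, Sum.inl y) = 0 := fun h => hp.2 (h1.1 h)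
        omega
    by_cases hbig : ∃ κ, A.card ≤ (Pk κ).card
    · obtain ⟨κ, hκ⟩ := hbig
      refine embed2 H A hbip (hostA s M) _ μ c κ ∅ (fun u hu => absurd hu (Finset.notMem_empty u))
        (Pk κ) Y1 x0 hκ ?_ (hPkadj κ) (fun u hu => absurd hu (Finset.notMem_empty u))
      rw [Finset.sdiff_empty]
      omega
    · push Not at hbig
      have hPkc : ∀ κ, (Pk κ).card = A.card - 1 := by
        have h1 : (Pk 0).card + (Pk 1).card = s := by
          have := Finset.card_sdiff_add_card_eq_card hR0P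
          rw [hPk, hPk, if_pos rfl, if_neg (by decide)]
          omega
        have h2 := hbig 0
        have h3 := hbig 1
        intro κ
        have hκ : κ = 0 ∨ κ = 1 := by omega
        rcases hκ with rfl | rfl
        · omega
        · omega
      obtain ⟨κ, Y', hY'Y, hY'c, hcov⟩ := hR m (s + M) μ (by rw [hμ]) Y1 (by omega) c
      have hls := low_spec H A
      refine embed2 H A hbip (hostA s M) _ μ c κ (low H A) (fun u hu => (hls.1 u hu).1)
        Y' (Pk κ) x0 (by omega) ?_ ?_ ?_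
      · rw [hls.2, hPkc]
        omega
      · intro y hy p hp
        have h1 := hPkadj κ p hp y (hY'Y hy)
        refine ⟨h1.1.symm, ?_⟩
        rw [Sym2.eq_swap]
        exact h1.2
      · intro u hu D hD hDc
        rw [(hls.1 u hu).2] at hDc
        exact hcov D hD hDc
  · rw [hs]
    exact hostA_not H hm hc A hbip hab hA M _ μ
  · rintro w ⟨w', rfl⟩
    exact XP_deg _ _ _ _

end Pool.Agent.Helper58.RS
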