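import Pool.Agent.Helper58.RS.Cover

/-!
# Bipartite graphs: common lemmas and the two theorems
-/

set_option autoImplicit false
open Classical

namespace Pool.Agent.Helper58.RS

/-- the bipartition of a connected graph is unique -/
theorem bip_unique {m : ℕ} (H : SimpleGraph (Fin m)) (hc : H.Connected) (p q : Fin m → Prop)
    (hp : ∀ u v, H.Adj u v → (p u ↔ ¬ p v)) (hq : ∀ u v, H.Adj u v → (q u ↔ ¬ q v)) :
    (∀ u, p u ↔ q u) ∨ ∀ u, p u ↔ ¬ q u := by
  obtain ⟨u0⟩ := hc.nonempty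
  have key : ∀ u v, H.Reachable u v → ((p u ↔ q u) ↔ (p v ↔ q v)) := by
    intro u v h
    obtain ⟨w⟩ := h
    induction w with
    | nil => exact Iff.rfl
    | cons h _ ih =>
      rw [← ih]
      have h1 := hp _ _ h
      have h2 := hq _ _ h
      tauto
  by_cases h0 : p u0 ↔ q u0
  · left
    intro u
    exact (key u0 u (hc.preconnected u0 u)).1 h0
  · right
    intro u
    have h1 := mt (key u0 u (hc.preconnected u0 u)).2 h0
    tauto

theorem exists_nbr {m : ℕ} (H : SimpleGraph (Fin m)) (hc : H.Connected) (hm : 2 ≤ m) (u : Fin m) :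
    ∃ v, H.Adj u v := by
  obtain ⟨v, hv⟩ : ∃ v : Fin m, v ≠ u := by
    have : Nontrivial (Fin m) := Fin.nontrivial_iff_two_le.2 hm
    exact exists_ne u
  obtain ⟨w⟩ := hc.preconnected u v
  cases w with
  | nil => exact absurd rfl hv
  | cons h _ => exact ⟨_, h⟩

theorem min_pos {m : ℕ} (H : SimpleGraph (Fin m)) (hc : H.Connected) (hm : 2 ≤ m) :
    1 ≤ H.minDegree := by
  have : Nonempty (Fin m) := ⟨⟨0, by omega⟩⟩
  obtain ⟨v, hv⟩ := H.exists_minimal_degree_vertex
  rw [hv]
  obtain ⟨u, hu⟩ := exists_nbr H hc hm v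
  rw [← SimpleGraph.card_neighborFinset_eq_degree]
  exact Finset.card_pos.2 ⟨u, (H.mem_neighborFinset v u).2 hu⟩

theorem exists_inj {m N : ℕ} (B : Finset (Fin m)) (S : Finset (Fin N)) (x0 : Fin N)
    (h : B.card ≤ S.card) : ∃ φ : Fin m → Fin N, (∀ u ∈ B, φ u ∈ S) ∧
      ∀ u ∈ B, ∀ v ∈ B, φ u = φ v → u = v := by
  obtain ⟨e⟩ : Nonempty ({u // u ∈ B} ↪ {x // x ∈ S}) := by
    apply Function.Embedding.nonempty_of_card_le
    rw [Fintype.card_coe, Fintype.card_coe]
    exact h
  refine ⟨fun u => if h : u ∈ B then (e ⟨u, h⟩ : Fin N) else x0, ?_, ?_⟩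
  · intro u hu
    show (if h : u ∈ B then (e ⟨u, h⟩ : Fin N) else x0) ∈ S
    rw [dif_pos hu]
    exact (e ⟨u, hu⟩).2
  · intro u hu v hv huv
    have huv' : (if h : u ∈ B then (e ⟨u, h⟩ : Fin N) else x0)
        = (if h : v ∈ B then (e ⟨v, h⟩ : Fin N) else x0) := huv
    rw [dif_pos hu, dif_pos hv] at huv'
    exact congrArg Subtype.val (e.injective (Subtype.ext huv'))

/-- embedding with two prescribed target sets -/
theorem embed2 {m : ℕ} (H : SimpleGraph (Fin m)) (A : Finset (Fin m))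
    (hbip : ∀ u v, H.Adj u v → (u ∈ A ↔ v ∉ A)) {N : ℕ} (X0 : SimpleGraph (Fin N)) (t μ : ℕ)
    (c : Sym2 (Fin N ⊕ (Finset (Fin N) × Fin μ)) → Fin 2) (κ : Fin 2) (L : Finset (Fin m))
    (hLA : ∀ u ∈ L, u ∉ A) (S1 S2 : Finset (Fin N)) (x0 : Fin N) (hS1 : A.card ≤ S1.card)
    (hS2 : (Aᶜ \ L).card ≤ S2.card)
    (hadj : ∀ x ∈ S1, ∀ y ∈ S2, X0.Adj x y ∧ c s(Sum.inl x, Sum.inl y) = κ)
    (hcov : ∀ u ∈ L, ∀ D ⊆ S1, D.card = H.degree u → m ≤ (Cov t μ c κ D).card) :
    Cop H Set.univ (XP X0 t μ) c := by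
  obtain ⟨φ1, h11, h12⟩ := exists_inj A S1 x0 hS1
  obtain ⟨φ2, h21, h22⟩ := exists_inj (Aᶜ \ L) S2 x0 hS2
  have hB : ∀ u, u ∉ A → u ∉ L → u ∈ Aᶜ \ L := fun u h1 h2 => by
    rw [Finset.mem_sdiff, Finset.mem_compl]; exact ⟨h1, h2⟩
  refine embed H A hbip X0 t μ c κ L hLA (fun u => if u ∈ A then φ1 u else φ2 u) ?_ ?_ ?_
  · intro u v hu hv huv
    by_cases hua : u ∈ A
    · by_cases hva : v ∈ A
      · rw [if_pos hua, if_pos hva] at huv
        exact h12 u hua v hva huv
      · rw [if_pos hua, if_neg hva] at huv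
        have e1 := h11 u hua
        have e2 := h21 v (hB v hva hv)
        have e3 := (hadj _ e1 _ e2).1
        rw [huv] at e3
        exact absurd e3 (X0.loopless.irrefl _)
    · by_cases hva : v ∈ A
      · rw [if_neg hua, if_pos hva] at huv
        have e1 := h11 v hva
        have e2 := h21 u (hB u hua hu)
        have e3 := (hadj _ e1 _ e2).1
        rw [huv] at e3
        exact absurd e3 (X0.loopless.irrefl _)
      · rw [if_neg hua, if_neg hva] at huv
        exact h22 u (hB u hua hu) v (hB v hva hv) huv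
  · intro u v huv hu hv
    by_cases hua : u ∈ A
    · have hva : v ∉ A := (hbip u v huv).1 hua
      rw [if_pos hua, if_neg hva]
      exact hadj _ (h11 u hua) _ (h21 v (hB v hva hv))
    · have hva : v ∈ A := by
        by_contra h
        exact hua ((hbip u v huv).2 h)
      rw [if_neg hua, if_pos hva]
      have := hadj _ (h11 v hva) _ (h21 u (hB u hua hu))
      refine ⟨this.1.symm, ?_⟩
      rw [Sym2.eq_swap]
      exact this.2
  · intro u hu
    have hNA : ∀ v ∈ H.neighborFinset u, v ∈ A := by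
      intro v hv
      rw [SimpleGraph.mem_neighborFinset] at hv
      by_contra h
      exact hLA u hu ((hbip u v hv).2 h)
    apply hcov u hu
    · intro x hx
      rw [Finset.mem_image] at hx
      obtain ⟨v, hv, rfl⟩ := hx
      rw [if_pos (hNA v hv)]
      exact h11 v (hNA v hv)
    · rw [← SimpleGraph.card_neighborFinset_eq_degree]
      apply Finset.card_image_of_injOn
      intro v hv w hw hvw
      have e1 := hNA v hv
      have e2 := hNA w hw
      simp only at hvw
      rw [if_pos e1, if_pos e2] at hvw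
      exact h12 v e1 w e2 hvw

/-- the low vertices -/
noncomputable def low {m : ℕ} (H : SimpleGraph (Fin m)) (A : Finset (Fin m)) : Finset (Fin m) :=
  Aᶜ.filter (fun v => ¬ H.minDegree < H.degree v)

theorem low_spec {m : ℕ} (H : SimpleGraph (Fin m)) (A : Finset (Fin m)) :
    (∀ u ∈ low H A, u ∉ A ∧ H.degree u = H.minDegree) ∧
    Aᶜ \ low H A = Aᶜ.filter (fun v => H.minDegree < H.degree v) := by
  refine ⟨?_, ?_⟩
  · intro u hu
    unfold low at hu
    rw [Finset.mem_filter, Finset.mem_compl] at hu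
    have := H.minDegree_le_degree u
    exact ⟨hu.1, by omega⟩
  · ext u
    unfold low
    rw [Finset.mem_sdiff, Finset.mem_filter, Finset.mem_filter]
    tauto

end Pool.Agent.Helper58.RS
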