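import Mathlib

/-!
# Minimum degree of minimal 2-Ramsey graphs: the closure principle

`s_2(H) = 2 δ(H) - 1` as soon as there is a graph `X` with a set `W` of vertices of degree at most
`2 δ(H) - 1` such that `X` is 2-Ramsey for `H` and `X - W` is not.
-/

set_option autoImplicit false
open Classical

namespace Pool.Agent.Helper58.RS

/-- the set of the minimum degrees of the minimal 2-Ramsey graphs for `H` (the set of the frozen
statement S09723) -/
def DSet {m : ℕ} (H : SimpleGraph (Fin m)) : Set ℕ :=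
  {d : ℕ | ∃ (n : ℕ) (G : SimpleGraph (Fin n)),
        (∀ c : Sym2 (Fin n) → Fin 2, ∃ i : Fin 2, ∃ f : Fin m → Fin n,
          Function.Injective f ∧
          ∀ u v : Fin m, H.Adj u v → G.Adj (f u) (f v) ∧ c s(f u, f v) = i) ∧
        (∀ (S : Set (Fin n)) (G' : SimpleGraph (Fin n)), G' ≤ G →
          (∀ a b : Fin n, G'.Adj a b → a ∈ S ∧ b ∈ S) →
          (S ≠ Set.univ ∨ G' ≠ G) →
          ∃ c : Sym2 (Fin n) → Fin 2, ∀ i : Fin 2, ∀ f : Fin m → Fin n,
            Function.Injective f → (∀ x : Fin m, f x ∈ S) →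
            ∃ u v : Fin m, H.Adj u v ∧
              ¬ (G'.Adj (f u) (f v) ∧ c s(f u, f v) = i)) ∧
        G.minDegree = d}

/-- a copy of `H` in colour `i` with all vertices in `S` -/
def Cop {m : ℕ} {V : Type} (H : SimpleGraph (Fin m)) (S : Set V) (G : SimpleGraph V)
    (c : Sym2 V → Fin 2) : Prop :=
  ∃ i : Fin 2, ∃ f : Fin m → V, Function.Injective f ∧ (∀ x, f x ∈ S) ∧
    ∀ u v : Fin m, H.Adj u v → G.Adj (f u) (f v) ∧ c s(f u, f v) = i

/-- every colouring of the edges of `G` contains a monochromatic copy of `H` with vertices in `S` -/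
def Ram {m : ℕ} {V : Type} (H : SimpleGraph (Fin m)) (S : Set V) (G : SimpleGraph V) : Prop :=
  ∀ c : Sym2 V → Fin 2, Cop H S G c

theorem Ram.mono {m : ℕ} {V : Type} {H : SimpleGraph (Fin m)} {S S' : Set V}
    {G G' : SimpleGraph V} (h : Ram H S G) (hS : S ⊆ S') (hG : G ≤ G') : Ram H S' G' := by
  intro c
  obtain ⟨i, f, hf, hfS, hfa⟩ := h c
  exact ⟨i, f, hf, fun x => hS (hfS x), fun u v huv => ⟨hG (hfa u v huv).1, (hfa u v huv).2⟩⟩

/-- the lower bound of Fox and Lin -/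
theorem lower {m : ℕ} (H : SimpleGraph (Fin m)) (hm : 2 ≤ m) (d : ℕ) (hd : d ∈ DSet H)
    (hδ : 1 ≤ H.minDegree) : 2 * (H.minDegree - 1) + 1 ≤ d := by
  obtain ⟨n, G, hR, hM, hdeg⟩ := hd
  by_contra hcon
  push Not at hcon
  have hnz : 0 < n := by
    obtain ⟨_, f, _, _⟩ := hR (fun _ => 0)
    exact lt_of_le_of_lt (Nat.zero_le _) (f ⟨0, by omega⟩).2
  have : Nonempty (Fin n) := ⟨⟨0, hnz⟩⟩
  obtain ⟨v, hv⟩ := G.exists_minimal_degree_vertex
  rw [hdeg] at hv
  obtain ⟨G', hG'⟩ : ∃ G' : SimpleGraph (Fin n), ∀ a b, G'.Adj a b ↔ G.Adj a b ∧ a ≠ v ∧ b ≠ v :=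
    ⟨{ Adj := fun a b => G.Adj a b ∧ a ≠ v ∧ b ≠ v
       symm := ⟨fun a b h => ⟨h.1.symm, h.2.2, h.2.1⟩⟩
       loopless := ⟨fun a h => G.loopless.irrefl a h.1⟩ }, fun a b => Iff.rfl⟩
  obtain ⟨c, hc⟩ := hM {x | x ≠ v} G' (fun a b h => ((hG' a b).1 h).1)
    (fun a b h => ⟨((hG' a b).1 h).2.1, ((hG' a b).1 h).2.2⟩)
    (Or.inl (fun h => by
      have : v ∈ ({x | x ≠ v} : Set (Fin n)) := by rw [h]; exact Set.mem_univ _
      exact this rfl))
  have hNcard : (G.neighborFinset v).card = d := by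
    rw [SimpleGraph.card_neighborFinset_eq_degree, ← hv]
  obtain ⟨R, hRN, hRc⟩ : ∃ R ⊆ G.neighborFinset v, R.card = min d (H.minDegree - 1) :=
    Finset.exists_subset_card_eq (by rw [hNcard]; exact min_le_left _ _)
  have hRc1 : R.card ≤ H.minDegree - 1 := by rw [hRc]; exact min_le_right _ _
  have hRc2 : (G.neighborFinset v \ R).card ≤ H.minDegree - 1 := by
    rw [Finset.card_sdiff_of_subset hRN, hNcard, hRc]
    omega
  -- the new colouring
  obtain ⟨c', hc'⟩ : ∃ c' : Sym2 (Fin n) → Fin 2,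
      ∀ z, c' z = if v ∈ z then (if ∃ w ∈ R, z = s(v, w) then 0 else 1) else c z := ⟨_, fun z => rfl⟩
  obtain ⟨i, f, hf, hfa⟩ := hR c'
  by_cases hvf : ∃ x, f x = v
  · obtain ⟨x, hx⟩ := hvf
    have hdx : H.minDegree ≤ H.degree x := H.minDegree_le_degree x
    have h1 : ∀ y ∈ H.neighborFinset x, f y ∈ G.neighborFinset v ∧
        (if ∃ w ∈ R, s(v, f y) = s(v, w) then (0 : Fin 2) else 1) = i := by
      intro y hy
      rw [SimpleGraph.mem_neighborFinset] at hy
      have h2 := hfa x y hy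
      rw [hx] at h2
      refine ⟨by rw [SimpleGraph.mem_neighborFinset]; exact h2.1, ?_⟩
      have h3 := h2.2
      rw [hc', if_pos (Sym2.mem_mk_left _ _)] at h3
      exact h3
    have h2 : ∀ y, (∃ w ∈ R, s(v, f y) = s(v, w)) ↔ f y ∈ R := by
      intro y
      constructor
      · rintro ⟨w, hw, hw2⟩
        rw [Sym2.eq_iff] at hw2
        rcases hw2 with ⟨_, h⟩ | ⟨h, h'⟩
        · rw [h]; exact hw
        · rw [h', h]; exact hw
      · intro h
        exact ⟨f y, h, rfl⟩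
    have h3 : (H.neighborFinset x).image f ⊆ R ∨ (H.neighborFinset x).image f ⊆ G.neighborFinset v \ R := by
      by_cases hi : i = 0
      · left
        intro z hz
        rw [Finset.mem_image] at hz
        obtain ⟨y, hy, rfl⟩ := hz
        have h4 := (h1 y hy).2
        rw [hi] at h4
        by_contra h5
        rw [if_neg (fun h => h5 ((h2 y).1 h))] at h4
        exact absurd h4 (by decide)
      · right
        intro z hz
        rw [Finset.mem_image] at hz
        obtain ⟨y, hy, rfl⟩ := hz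
        rw [Finset.mem_sdiff]
        refine ⟨(h1 y hy).1, fun h5 => ?_⟩
        have h4 := (h1 y hy).2
        rw [if_pos ((h2 y).2 h5)] at h4
        exact hi h4.symm
    have h4 : ((H.neighborFinset x).image f).card = H.degree x := by
      rw [Finset.card_image_of_injective _ hf, SimpleGraph.card_neighborFinset_eq_degree]
    rcases h3 with h3 | h3
    · have := Finset.card_le_card h3
      omega
    · have := Finset.card_le_card h3
      omega
  · push Not at hvf
    obtain ⟨a, b, hab, hno⟩ := hc i f hf hvf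
    have h2 := hfa a b hab
    apply hno
    refine ⟨(hG' _ _).2 ⟨h2.1, hvf a, hvf b⟩, ?_⟩
    have h3 := h2.2
    rw [hc', if_neg (by
      rw [Sym2.mem_iff]
      rintro (h | h)
      · exact hvf a h.symm
      · exact hvf b h.symm)] at h3
    exact h3

/-- existence of a minimal Ramsey graph with a vertex of small degree -/
theorem upper {m : ℕ} (H : SimpleGraph (Fin m)) {V : Type} [Finite V] (X : SimpleGraph V)
    (W : Set V) (D : ℕ) (hR : Ram H Set.univ X) (hN : ¬ Ram H Wᶜ X)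
    (hD : ∀ w ∈ W, (X.neighborSet w).ncard ≤ D) : ∃ d ∈ DSet H, d ≤ D := by
  -- a minimal pair
  obtain ⟨P, hP⟩ : ∃ P : Set (Set V × SimpleGraph V), P = {p | Ram H p.1 p.2 ∧ p.2 ≤ X ∧
      ∀ a b, p.2.Adj a b → a ∈ p.1 ∧ b ∈ p.1} := ⟨_, rfl⟩
  have hPfin : P.Finite := Set.toFinite _
  have hPne : P.Nonempty := ⟨(Set.univ, X), by
    rw [hP]; exact ⟨hR, le_refl _, fun a b _ => ⟨Set.mem_univ _, Set.mem_univ _⟩⟩⟩
  obtain ⟨p, hpmin⟩ := hPfin.exists_minimal hPne
  obtain ⟨S, G'⟩ := p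
  have hpP : (S, G') ∈ P := hpmin.prop
  have hpP' := hpP
  rw [hP] at hpP'
  obtain ⟨hSR, hGX, hGS⟩ := hpP'
  have hmin : ∀ q ∈ P, q ≤ (S, G') → q = (S, G') := fun q hq hle =>
    le_antisymm hle (hpmin.2 hq hle)
  -- a vertex of W in S
  have hw : ∃ w ∈ S, w ∈ W := by
    by_contra hcon
    push Not at hcon
    exact hN (hSR.mono (fun x hx => hcon x hx) hGX)
  obtain ⟨w, hwS, hwW⟩ := hw
  have : Fintype V := Fintype.ofFinite V
  have : Fintype S := Fintype.ofFinite S
  obtain ⟨n, hn⟩ : ∃ n, n = Fintype.card S := ⟨_, rfl⟩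
  obtain e : Fin n ≃ S := hn ▸ (Fintype.equivFin S).symm
  obtain ⟨g, hg⟩ : ∃ g : Fin n → V, g = fun a => ((e a : S) : V) := ⟨_, rfl⟩
  have hginj : Function.Injective g := by
    rw [hg]
    exact fun a b h => e.injective (Subtype.ext h)
  have hgS : ∀ a, g a ∈ S := by
    intro a
    rw [hg]
    exact (e a).2
  have hgsurj : ∀ x ∈ S, ∃ a, g a = x := by
    intro x hx
    refine ⟨e.symm ⟨x, hx⟩, ?_⟩
    rw [hg]
    simp
  obtain ⟨Gs, hGs⟩ : ∃ Gs : SimpleGraph (Fin n), ∀ a b, Gs.Adj a b ↔ G'.Adj (g a) (g b) :=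
    ⟨G'.comap g, fun a b => Iff.rfl⟩
  -- transport of copies
  have htr : ∀ (S0 : Set (Fin n)) (G0 : SimpleGraph (Fin n)) (G1 : SimpleGraph V),
      (∀ a b, G0.Adj a b ↔ G1.Adj (g a) (g b)) →
      (Ram H (g '' S0) G1 ↔ Ram H S0 G0) := by
    intro S0 G0 G1 hadj
    constructor
    · intro h c
      obtain ⟨c1, hc1⟩ : ∃ c1 : Sym2 V → Fin 2, ∀ z : Sym2 (Fin n), c1 (z.map g) = c z := by
        refine ⟨fun y => if h : ∃ z : Sym2 (Fin n), z.map g = y then c h.choose else 0, fun z => ?_⟩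
        have hex : ∃ z' : Sym2 (Fin n), z'.map g = z.map g := ⟨z, rfl⟩
        show (if h : ∃ z' : Sym2 (Fin n), z'.map g = z.map g then c h.choose else 0) = c z
        rw [dif_pos hex]
        exact congrArg c (Sym2.map.injective hginj hex.choose_spec)
      obtain ⟨i, f, hf, hfS, hfa⟩ := h c1
      have hex : ∀ x, ∃ a ∈ S0, g a = f x := fun x => by
        obtain ⟨a, ha, ha2⟩ := hfS x
        exact ⟨a, ha, ha2⟩
      choose k hkS hk using hex
      refine ⟨i, k, ?_, hkS, ?_⟩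
      · intro x y hxy
        apply hf
        rw [← hk x, ← hk y, hxy]
      · intro u v huv
        obtain ⟨h1, h2⟩ := hfa u v huv
        rw [← hk u, ← hk v] at h1 h2
        refine ⟨(hadj _ _).2 h1, ?_⟩
        rw [← hc1]
        exact h2
    · intro h c
      obtain ⟨i, f, hf, hfS, hfa⟩ := h (fun z => c (z.map g))
      refine ⟨i, fun x => g (f x), fun x y hxy => hf (hginj hxy), fun x => ⟨f x, hfS x, rfl⟩, ?_⟩
      intro u v huv
      obtain ⟨h1, h2⟩ := hfa u v huv
      exact ⟨(hadj _ _).1 h1, h2⟩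
  have hrange : g '' (Set.univ : Set (Fin n)) = S := by
    ext x
    constructor
    · rintro ⟨a, _, rfl⟩
      exact hgS a
    · intro hx
      obtain ⟨a, ha⟩ := hgsurj x hx
      exact ⟨a, Set.mem_univ _, ha⟩
  refine ⟨Gs.minDegree, ⟨n, Gs, ?_, ?_, rfl⟩, ?_⟩
  · intro c
    have h1 : Ram H Set.univ Gs := by
      rw [← htr Set.univ Gs G' hGs, hrange]
      exact hSR
    obtain ⟨i, f, hf, _, hfa⟩ := h1 c
    exact ⟨i, f, hf, hfa⟩
  · intro S0 G0 hG0 hG0S hne
    by_contra hcon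
    push Not at hcon
    have h1 : Ram H S0 G0 := by
      intro c
      obtain ⟨i, f, hf, hfS, hfa⟩ := hcon c
      exact ⟨i, f, hf, hfS, hfa⟩
    -- the corresponding pair
    obtain ⟨G1, hG1⟩ : ∃ G1 : SimpleGraph V, ∀ x y, G1.Adj x y ↔ ∃ a b, G0.Adj a b ∧ g a = x ∧ g b = y :=
      ⟨{ Adj := fun x y => ∃ a b, G0.Adj a b ∧ g a = x ∧ g b = y
         symm := ⟨fun x y h => by
           obtain ⟨a, b, h1, h2, h3⟩ := h
           exact ⟨b, a, h1.symm, h3, h2⟩⟩
         loopless := ⟨fun x h => by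
           obtain ⟨a, b, h1, h2, h3⟩ := h
           exact G0.ne_of_adj h1 (hginj (h2.trans h3.symm))⟩ }, fun x y => Iff.rfl⟩
    have hG1a : ∀ a b, G0.Adj a b ↔ G1.Adj (g a) (g b) := by
      intro a b
      rw [hG1]
      constructor
      · intro h
        exact ⟨a, b, h, rfl, rfl⟩
      · rintro ⟨a', b', h, ha, hb⟩
        have e1 : a' = a := hginj ha
        have e2 : b' = b := hginj hb
        rw [← e1, ← e2]
        exact h
    have hG1b : ∀ x y, G1.Adj x y → ∃ a b, G0.Adj a b ∧ g a = x ∧ g b = y :=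
      fun x y h => (hG1 x y).1 h
    have h2 : Ram H (g '' S0) G1 := (htr S0 G0 G1 hG1a).2 h1
    have h3 : G1 ≤ G' := by
      intro x y h
      obtain ⟨a, b, h', rfl, rfl⟩ := hG1b x y h
      exact (hGs a b).1 (hG0 h')
    have h4 : ((g '' S0, G1) : Set V × SimpleGraph V) ∈ P := by
      rw [hP]
      refine ⟨h2, h3.trans hGX, ?_⟩
      intro x y h
      obtain ⟨a, b, h', rfl, rfl⟩ := hG1b x y h
      exact ⟨⟨a, (hG0S a b h').1, rfl⟩, ⟨b, (hG0S a b h').2, rfl⟩⟩
    have h5 : ((g '' S0, G1) : Set V × SimpleGraph V) ≤ (S, G') := by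
      refine ⟨?_, h3⟩
      rintro x ⟨a, _, rfl⟩
      exact hgS a
    have h6 := hmin _ h4 h5
    have h7 : g '' S0 = S := congrArg Prod.fst h6
    have h8 : G1 = G' := congrArg Prod.snd h6
    rcases hne with hne | hne
    · apply hne
      rw [← hrange] at h7
      exact (Set.image_injective.2 hginj) h7
    · apply hne
      ext a b
      rw [hG1a, h8, hGs]
  · obtain ⟨a, ha⟩ := hgsurj w hwS
    refine le_trans (Gs.minDegree_le_degree a) ?_
    refine le_trans ?_ (hD w hwW)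
    rw [← SimpleGraph.card_neighborFinset_eq_degree, ← Set.ncard_coe_finset,
      ← Set.ncard_image_of_injective _ hginj]
    refine Set.ncard_le_ncard ?_ (Set.toFinite _)
    rintro x ⟨b, hb, rfl⟩
    rw [Finset.mem_coe, SimpleGraph.mem_neighborFinset, hGs, ha] at hb
    exact hGX hb

/-- the closure principle -/
theorem closure {m : ℕ} (H : SimpleGraph (Fin m)) (hm : 2 ≤ m) (hδ : 1 ≤ H.minDegree)
    {V : Type} [Finite V] (X : SimpleGraph V)
    (W : Set V) (hR : Ram H Set.univ X) (hN : ¬ Ram H Wᶜ X)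
    (hD : ∀ w ∈ W, (X.neighborSet w).ncard ≤ 2 * (H.minDegree - 1) + 1) :
    sInf (DSet H) = 2 * (H.minDegree - 1) + 1 := by
  obtain ⟨d, hd, hdD⟩ := upper H X W _ hR hN hD
  apply le_antisymm
  · exact le_trans (Nat.sInf_le hd) hdD
  · exact le_csInf ⟨d, hd⟩ (fun d' hd' => lower H hm d' hd' hδ)

end Pool.Agent.Helper58.RS
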