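import Pool.Agent.Helper58.RS.Closure
import Pool.Agent.Helper35.PP.Ramsey

/-!
# Attaching vertices of small degree to all sets of given size
-/

set_option autoImplicit false
open Classical

namespace Pool.Agent.Helper58.RS

/-- the graph `X0` together with `μ` new vertices joined to `T`, for every set `T` of `t` vertices -/
def XP {N : ℕ} (X0 : SimpleGraph (Fin N)) (t μ : ℕ) :
    SimpleGraph (Fin N ⊕ (Finset (Fin N) × Fin μ)) where
  Adj := fun x y => match x, y with
    | .inl a, .inl b => X0.Adj a b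
    | .inl a, .inr w => a ∈ w.1 ∧ w.1.card = t
    | .inr w, .inl a => a ∈ w.1 ∧ w.1.card = t
    | .inr _, .inr _ => False
  symm := ⟨fun x y h => by
    cases x <;> cases y
    · exact X0.symm.symm _ _ h
    · exact h
    · exact h
    · exact h⟩
  loopless := ⟨fun x h => by
    cases x
    · exact X0.loopless.irrefl _ h
    · exact h⟩

theorem XP_deg {N : ℕ} (X0 : SimpleGraph (Fin N)) (t μ : ℕ) (w : Finset (Fin N) × Fin μ) :
    ((XP X0 t μ).neighborSet (Sum.inr w)).ncard ≤ t := by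
  by_cases hw : w.1.card = t
  · have h : (XP X0 t μ).neighborSet (Sum.inr w) ⊆ Sum.inl '' (w.1 : Set (Fin N)) := by
      intro x hx
      cases x with
      | inl a => exact ⟨a, hx.1, rfl⟩
      | inr _ => exact absurd hx (fun h => h)
    refine le_trans (Set.ncard_le_ncard h (Set.toFinite _)) ?_
    refine le_trans (Set.ncard_image_le (Set.toFinite _)) ?_
    rw [Set.ncard_coe_finset, hw]
  · have h : (XP X0 t μ).neighborSet (Sum.inr w) = ∅ := by
      ext x
      constructor
      · intro hx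
        cases x with
        | inl a => exact absurd hx.2 hw
        | inr _ => exact absurd hx (fun h => h)
      · intro hx
        exact absurd hx (Set.notMem_empty _)
    rw [h, Set.ncard_empty]
    exact Nat.zero_le _

/-- the new vertices joined to all of `D` in colour `κ` -/
noncomputable def Cov {N : ℕ} (t μ : ℕ) (c : Sym2 (Fin N ⊕ (Finset (Fin N) × Fin μ)) → Fin 2)
    (κ : Fin 2) (D : Finset (Fin N)) : Finset (Finset (Fin N) × Fin μ) :=
  Finset.univ.filter (fun w => w.1.card = t ∧ D ⊆ w.1 ∧ ∀ d ∈ D, c s(Sum.inl d, Sum.inr w) = κ)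

/-- a large set all of whose `δ`-subsets are covered in one colour -/
theorem cover (δ v : ℕ) (hδ : 1 ≤ δ) (hv : 2 * (δ - 1) + 1 ≤ v) : ∃ R : ℕ, ∀ (b N μ : ℕ),
    b * (2 * 2 ^ (2 * (δ - 1) + 1)) ≤ μ → ∀ Y : Finset (Fin N), R ≤ Y.card →
    ∀ c : Sym2 (Fin N ⊕ (Finset (Fin N) × Fin μ)) → Fin 2, ∃ (κ : Fin 2) (Y' : Finset (Fin N)),
      Y' ⊆ Y ∧ Y'.card = v ∧ ∀ D ⊆ Y', D.card = δ → b ≤ (Cov (2 * (δ - 1) + 1) μ c κ D).card := by
  obtain ⟨R, hR⟩ := Pool.Agent.Helper35.PP.finite_ramsey_multi [δ, δ] v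
  refine ⟨R, fun b N μ hμ Y hY c => ?_⟩
  obtain ⟨t, ht⟩ : ∃ t, t = 2 * (δ - 1) + 1 := ⟨_, rfl⟩
  rw [← ht] at hμ hv ⊢
  -- transport to sets of natural numbers
  obtain ⟨F, hF⟩ : ∃ F : Finset ℕ → Finset (Fin N), ∀ S, F S = Finset.univ.filter (fun a : Fin N => (a : ℕ) ∈ S) :=
    ⟨_, fun S => rfl⟩
  have hYc : (Y.image (fun a : Fin N => (a : ℕ))).card = Y.card :=
    Finset.card_image_of_injective _ Fin.val_injective
  obtain ⟨S, hSY, hSc, hS⟩ := hR (Y.image (fun a : Fin N => (a : ℕ))) (by rw [hYc]; exact hY)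
    (fun j D => if j = 0 then b ≤ (Cov t μ c 0 (F D)).card else b ≤ (Cov t μ c 1 (F D)).card)
  have hS0 := hS 0 (by simp)
  have hS1 := hS 1 (by simp)
  simp only [List.getElem_cons_zero, List.getElem_cons_succ, if_true, one_ne_zero, if_false] at hS0 hS1
  have hFimg : ∀ D : Finset (Fin N), F (D.image (fun a : Fin N => (a : ℕ))) = D := by
    intro D
    rw [hF]
    ext a
    rw [Finset.mem_filter, Finset.mem_image]
    constructor
    · rintro ⟨_, a', ha', h⟩
      rw [← Fin.val_injective h]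
      exact ha'
    · intro ha
      exact ⟨Finset.mem_univ _, a, ha, rfl⟩
  have hFS : (F S).image (fun a : Fin N => (a : ℕ)) = S := by
    ext x
    rw [Finset.mem_image]
    constructor
    · rintro ⟨a, ha, rfl⟩
      rw [hF, Finset.mem_filter] at ha
      exact ha.2
    · intro hx
      obtain ⟨a, _, rfl⟩ := Finset.mem_image.1 (hSY hx)
      exact ⟨a, by rw [hF, Finset.mem_filter]; exact ⟨Finset.mem_univ _, hx⟩, rfl⟩
  have hFSc : (F S).card = v := by
    rw [← hSc, ← Finset.card_image_of_injective (F S) Fin.val_injective, hFS]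
  have hFSY : F S ⊆ Y := by
    intro a ha
    rw [hF, Finset.mem_filter] at ha
    obtain ⟨a', ha', h⟩ := Finset.mem_image.1 (hSY ha.2)
    rw [← Fin.val_injective h]
    exact ha'
  have hhom : ∀ (κ : Fin 2) (D D' : Finset (Fin N)), D ⊆ F S → D' ⊆ F S → D.card = δ → D'.card = δ →
      b ≤ (Cov t μ c κ D).card → b ≤ (Cov t μ c κ D').card := by
    intro κ D D' hD hD' hDc hD'c hcov
    have e1 : D.image (fun a : Fin N => (a : ℕ)) ⊆ S := by
      rw [← hFS]; exact Finset.image_subset_image hD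
    have e2 : D'.image (fun a : Fin N => (a : ℕ)) ⊆ S := by
      rw [← hFS]; exact Finset.image_subset_image hD'
    have e3 : (D.image (fun a : Fin N => (a : ℕ))).card = δ := by
      rw [Finset.card_image_of_injective _ Fin.val_injective, hDc]
    have e4 : (D'.image (fun a : Fin N => (a : ℕ))).card = δ := by
      rw [Finset.card_image_of_injective _ Fin.val_injective, hD'c]
    have hκ : κ = 0 ∨ κ = 1 := by omega
    rcases hκ with rfl | rfl
    · have := hS0 _ _ e1 e2 e3 e4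
      rw [hFimg, hFimg] at this
      exact this.1 hcov
    · have := hS1 _ _ e1 e2 e3 e4
      rw [hFimg, hFimg] at this
      exact this.1 hcov
  -- a covered set
  obtain ⟨T, hT, hTc⟩ := Finset.exists_subset_card_eq (s := F S) (n := t) (by rw [hFSc]; exact hv)
  have hi : ∀ i : Fin μ, ∃ p : Fin 2 × Finset (Fin N), p.2 ⊆ T ∧ p.2.card = δ ∧
      ∀ d ∈ p.2, c s(Sum.inl d, Sum.inr (T, i)) = p.1 := by
    intro i
    have hsum := Finset.card_filter_add_card_filter_not (s := T)
      (fun d => c s(Sum.inl d, Sum.inr (T, i)) = 0)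
    rcases le_or_gt δ (T.filter (fun d => c s(Sum.inl d, Sum.inr (T, i)) = 0)).card with h1 | h1
    · obtain ⟨D, hD, hDc⟩ := Finset.exists_subset_card_eq h1
      refine ⟨(0, D), hD.trans (Finset.filter_subset _ _), hDc, ?_⟩
      intro d hd
      exact (Finset.mem_filter.1 (hD hd)).2
    · have h2 : δ ≤ (T.filter (fun d => ¬ c s(Sum.inl d, Sum.inr (T, i)) = 0)).card := by omega
      obtain ⟨D, hD, hDc⟩ := Finset.exists_subset_card_eq h2
      refine ⟨(1, D), hD.trans (Finset.filter_subset _ _), hDc, ?_⟩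
      intro d hd
      have h3 := (Finset.mem_filter.1 (hD hd)).2
      show c s(Sum.inl d, Sum.inr (T, i)) = 1
      omega
  choose p hp1 hp2 hp3 using hi
  have hmaps : ∀ i ∈ (Finset.univ : Finset (Fin μ)), p i ∈ (Finset.univ : Finset (Fin 2)) ×ˢ T.powerset := by
    intro i _
    rw [Finset.mem_product, Finset.mem_powerset]
    exact ⟨Finset.mem_univ _, hp1 i⟩
  have hcardp : ((Finset.univ : Finset (Fin 2)) ×ˢ T.powerset).card = 2 * 2 ^ t := by
    rw [Finset.card_product, Finset.card_powerset, hTc]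
    simp
  rcases Nat.eq_zero_or_pos b with hb | hb
  · exact ⟨0, F S, hFSY, hFSc, fun D _ _ => by rw [hb]; exact Nat.zero_le _⟩
  have hμ0 : 0 < μ := lt_of_lt_of_le (Nat.mul_pos hb (by positivity)) hμ
  obtain ⟨q, hq, hqb⟩ := Finset.exists_le_card_fiber_of_mul_le_card_of_maps_to hmaps
    ⟨p ⟨0, hμ0⟩, hmaps _ (Finset.mem_univ _)⟩
    (by rw [hcardp, Finset.card_univ, Fintype.card_fin, mul_comm]; exact hμ)
  obtain ⟨i0, hi0⟩ : (Finset.univ.filter (fun i : Fin μ => p i = q)).Nonempty := by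
    rw [← Finset.card_pos]
    exact lt_of_lt_of_le hb hqb
  have hi0' := (Finset.mem_filter.1 hi0).2
  have hqT : q.2 ⊆ T := by rw [← hi0']; exact hp1 i0
  have hqc : q.2.card = δ := by rw [← hi0']; exact hp2 i0
  have hcov : b ≤ (Cov t μ c q.1 q.2).card := by
    refine le_trans hqb ?_
    rw [← Finset.card_image_of_injective (f := fun i : Fin μ => ((T, i) : Finset (Fin N) × Fin μ))
      (Finset.univ.filter (fun i : Fin μ => p i = q)) (fun i j h => (Prod.ext_iff.1 h).2)]
    apply Finset.card_le_card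
    intro w hw
    rw [Finset.mem_image] at hw
    obtain ⟨i, hi, rfl⟩ := hw
    have hi' := (Finset.mem_filter.1 hi).2
    unfold Cov
    rw [Finset.mem_filter]
    refine ⟨Finset.mem_univ _, hTc, hqT, ?_⟩
    intro d hd
    have := hp3 i d (by rw [hi']; exact hd)
    rw [hi'] at this
    exact this
  refine ⟨q.1, F S, hFSY, hFSc, fun D hD hDc => ?_⟩
  exact hhom q.1 q.2 D (hqT.trans hT) hD hqc hDc hcov

/-- embedding of `H`: the low vertices are mapped to new vertices -/
theorem embed {m : ℕ} (H : SimpleGraph (Fin m)) (A : Finset (Fin m))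
    (hbip : ∀ u v, H.Adj u v → (u ∈ A ↔ v ∉ A)) {N : ℕ} (X0 : SimpleGraph (Fin N)) (t μ : ℕ)
    (c : Sym2 (Fin N ⊕ (Finset (Fin N) × Fin μ)) → Fin 2) (κ : Fin 2) (L : Finset (Fin m))
    (hLA : ∀ u ∈ L, u ∉ A) (φ : Fin m → Fin N) (hinj : ∀ u v, u ∉ L → v ∉ L → φ u = φ v → u = v)
    (hadj : ∀ u v, H.Adj u v → u ∉ L → v ∉ L → X0.Adj (φ u) (φ v) ∧ c s(Sum.inl (φ u), Sum.inl (φ v)) = κ)
    (hcov : ∀ u ∈ L, m ≤ (Cov t μ c κ ((H.neighborFinset u).image φ)).card) :
    Cop H Set.univ (XP X0 t μ) c := by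
  -- choice of the new vertices
  obtain ⟨w, hwinj, hw⟩ := (Finset.all_card_le_biUnion_card_iff_exists_injective
    (fun u : {u // u ∈ L} => Cov t μ c κ ((H.neighborFinset u.1).image φ))).1 (by
      intro s
      rcases s.eq_empty_or_nonempty with hs | ⟨u, hu⟩
      · rw [hs]; exact Nat.zero_le _
      · refine le_trans ?_ (Finset.card_le_card (Finset.subset_biUnion_of_mem
          (fun u : {u // u ∈ L} => Cov t μ c κ ((H.neighborFinset u.1).image φ)) hu))
        refine le_trans ?_ (hcov u.1 u.2)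
        refine le_trans (Finset.card_le_univ s) ?_
        rw [Fintype.card_coe]
        exact le_trans (Finset.card_le_univ L) (by rw [Fintype.card_fin]))
  obtain ⟨g, hg⟩ : ∃ g : Fin m → Fin N ⊕ (Finset (Fin N) × Fin μ),
      ∀ u, g u = if h : u ∈ L then Sum.inr (w ⟨u, h⟩) else Sum.inl (φ u) := ⟨_, fun u => rfl⟩
  have hg1 : ∀ u (h : u ∈ L), g u = Sum.inr (w ⟨u, h⟩) := fun u h => by rw [hg, dif_pos h]
  have hg2 : ∀ u, u ∉ L → g u = Sum.inl (φ u) := fun u h => by rw [hg, dif_neg h]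
  have hlow : ∀ u v, H.Adj u v → ∀ h : u ∈ L, v ∉ L ∧ φ v ∈ (w ⟨u, h⟩).1 ∧ (w ⟨u, h⟩).1.card = t ∧
      c s(Sum.inl (φ v), Sum.inr (w ⟨u, h⟩)) = κ := by
    intro u v huv h
    have hvA : v ∈ A := by
      by_contra hv
      exact hLA u h ((hbip u v huv).2 hv)
    have h1 := hw ⟨u, h⟩
    unfold Cov at h1
    rw [Finset.mem_filter] at h1
    have h2 : φ v ∈ (H.neighborFinset u).image φ :=
      Finset.mem_image_of_mem _ ((H.mem_neighborFinset u v).2 huv)
    exact ⟨fun hv => hLA v hv hvA, h1.2.2.1 h2, h1.2.1, h1.2.2.2 _ h2⟩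
  refine ⟨κ, g, ?_, fun _ => Set.mem_univ _, ?_⟩
  · intro u v huv
    by_cases hu : u ∈ L
    · by_cases hv : v ∈ L
      · rw [hg1 u hu, hg1 v hv] at huv
        have h1 := hwinj (Sum.inr_injective huv)
        exact congrArg Subtype.val h1
      · rw [hg1 u hu, hg2 v hv] at huv
        exact absurd huv Sum.inr_ne_inl
    · by_cases hv : v ∈ L
      · rw [hg2 u hu, hg1 v hv] at huv
        exact absurd huv Sum.inl_ne_inr
      · rw [hg2 u hu, hg2 v hv] at huv
        exact hinj u v hu hv (Sum.inl_injective huv)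
  · intro u v huv
    by_cases hu : u ∈ L
    · obtain ⟨hv, h1, h2, h3⟩ := hlow u v huv hu
      rw [hg1 u hu, hg2 v hv]
      refine ⟨⟨h1, h2⟩, ?_⟩
      rw [Sym2.eq_swap]
      exact h3
    · by_cases hv : v ∈ L
      · obtain ⟨_, h1, h2, h3⟩ := hlow v u huv.symm hv
        rw [hg2 u hu, hg1 v hv]
        exact ⟨⟨h1, h2⟩, h3⟩
      · rw [hg2 u hu, hg2 v hv]
        exact hadj u v huv hu hv

end Pool.Agent.Helper58.RS
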