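import Pool.Agent.Helper58.RS.Bip

/-!
# Very unbalanced bipartite graphs
-/

set_option autoImplicit false
open Classical

namespace Pool.Agent.Helper58.RS

theorem conn_const {m : ℕ} (H : SimpleGraph (Fin m)) (hc : H.Connected) (q : Fin m → Prop)
    (hq : ∀ u v, H.Adj u v → (q u ↔ q v)) : (∀ u, q u) ∨ ∀ u, ¬ q u := by
  obtain ⟨u0⟩ := hc.nonempty
  have key : ∀ u v, H.Reachable u v → (q u ↔ q v) := by
    intro u v h
    obtain ⟨w⟩ := h
    induction w with
    | nil => exact Iff.rfl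
    | cons h _ ih => rw [← ih]; exact hq _ _ h
  by_cases h0 : q u0
  · left
    intro u
    exact (key u0 u (hc.preconnected u0 u)).1 h0
  · right
    intro u hu
    exact h0 ((key u0 u (hc.preconnected u0 u)).2 hu)

theorem hostK_not {m : ℕ} (H : SimpleGraph (Fin m)) (hc : H.Connected)
    (A : Finset (Fin m)) (hbip : ∀ u v, H.Adj u v → (u ∈ A ↔ v ∉ A)) (b : ℕ) (hb : b = Aᶜ.card)
    (hb1 : 1 ≤ b) (t μ : ℕ) :
    ¬ Ram H (Set.range Sum.inr)ᶜ (XP (⊤ : SimpleGraph (Fin (2 * (b - 1)))) t μ) := by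
  intro hR
  obtain ⟨c, hcdef⟩ : ∃ c : Sym2 (Fin (2 * (b - 1)) ⊕ (Finset (Fin (2 * (b - 1))) × Fin μ)) → Fin 2,
      ∀ z, c z = if ∃ x y : Fin (2 * (b - 1)), z = s(Sum.inl x, Sum.inl y) ∧
        ((x : ℕ) < b - 1 ↔ (y : ℕ) < b - 1) then 0 else 1 := ⟨_, fun z => rfl⟩
  obtain ⟨i, f, hf, hfS, hfa⟩ := hR c
  have hex : ∀ u, ∃ a, f u = Sum.inl a := by
    intro u
    cases h : f u with
    | inl a => exact ⟨a, rfl⟩
    | inr w => exact absurd ⟨w, h.symm⟩ (hfS u)
  choose g hg using hex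
  have hginj : Function.Injective g := by
    intro u v huv
    apply hf
    rw [hg, hg, huv]
  have hcol : ∀ x y, c s(Sum.inl x, Sum.inl y) = 0 ↔ ((x : ℕ) < b - 1 ↔ (y : ℕ) < b - 1) := by
    intro x y
    rw [hcdef]
    constructor
    · intro h
      by_contra hcon
      rw [if_neg] at h
      · exact absurd h (by decide)
      · rintro ⟨x', y', h1, h2⟩
        rw [Sym2.eq_iff] at h1
        rcases h1 with ⟨e1, e2⟩ | ⟨e1, e2⟩
        · rw [Sum.inl_injective e1, Sum.inl_injective e2] at hcon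
          exact hcon h2
        · rw [Sum.inl_injective e1, Sum.inl_injective e2] at hcon
          exact hcon h2.symm
    · intro h
      rw [if_pos ⟨x, y, rfl, h⟩]
  have hcard : ∀ S : Finset (Fin m), ((∀ u ∈ S, (g u : ℕ) < b - 1) ∨
      (∀ u ∈ S, ¬ (g u : ℕ) < b - 1)) → S.card ≤ b - 1 := by
    rintro S (h | h)
    · have h1 : S.card ≤ (Finset.range (b - 1)).card := by
        apply Finset.card_le_card_of_injOn (fun u => (g u : ℕ))
        · intro u hu
          rw [Finset.mem_coe, Finset.mem_range]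
          exact h u hu
        · intro u _ v _ huv
          exact hginj (Fin.val_injective huv)
      rwa [Finset.card_range] at h1
    · have h1 : S.card ≤ (Finset.Ico (b - 1) (2 * (b - 1))).card := by
        apply Finset.card_le_card_of_injOn (fun u => (g u : ℕ))
        · intro u hu
          rw [Finset.mem_coe, Finset.mem_Ico]
          have h5 : ¬ (g u : ℕ) < b - 1 := h u hu
          exact ⟨not_lt.1 h5, (g u).2⟩
        · intro u _ v _ huv
          exact hginj (Fin.val_injective huv)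
      rw [Nat.card_Ico] at h1
      omega
  have hfin : (∀ u ∈ Aᶜ, (g u : ℕ) < b - 1) ∨ (∀ u ∈ Aᶜ, ¬ (g u : ℕ) < b - 1) := by
    by_cases hi : i = 0
    · rcases conn_const H hc (fun u => (g u : ℕ) < b - 1) (by
        intro u v huv
        have h := (hfa u v huv).2
        rw [hg, hg, hi, hcol] at h
        exact h) with h | h
      · exact Or.inl fun u _ => h u
      · exact Or.inr fun u _ => h u
    · rcases bip_unique H hc (fun u => u ∈ A) (fun u => (g u : ℕ) < b - 1) hbip (by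
        intro u v huv
        have h := (hfa u v huv).2
        rw [hg, hg] at h
        have h2 := mt (hcol (g u) (g v)).2 (by rw [h]; exact hi)
        tauto) with h | h
      · right
        intro u hu h2
        rw [Finset.mem_compl] at hu
        exact hu ((h u).2 h2)
      · left
        intro u hu
        rw [Finset.mem_compl] at hu
        have := h u
        tauto
  have := hcard _ hfin
  omega

/-- the key combinatorial step -/
theorem key_unb {m a h b : ℕ} (H : SimpleGraph (Fin m)) (A : Finset (Fin m)) (ha : 1 ≤ a)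
    (hbip : ∀ u v, H.Adj u v → (u ∈ A ↔ v ∉ A)) (hAc : A.card = a) (hBc : Aᶜ.card = b)
    (hh : (Aᶜ.filter (fun v => H.minDegree < H.degree v)).card = h) {N : ℕ} (t μ : ℕ)
    (c : Sym2 (Fin N ⊕ (Finset (Fin N) × Fin μ)) → Fin 2) (κ : Fin 2) (Y : Finset (Fin N))
    (hY : Y.card = 4 * a * a)
    (hcov : ∀ D ⊆ Y, D.card = H.minDegree → m ≤ (Cov t μ c κ D).card)
    (hN : 4 * b + 3 * (4 * a * a) + 3 * (2 ^ (4 * a * a) * h) ≤ 3 * N) :
    Cop H Set.univ (XP (⊤ : SimpleGraph (Fin N)) t μ) c := by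
  have hls := low_spec H A
  have hN0 : 0 < N := by
    have : 0 < 4 * a * a := by positivity
    omega
  have x0 : Fin N := ⟨0, hN0⟩
  -- the common neighbours
  obtain ⟨Z, hZ⟩ : ∃ Z, Z = Yᶜ := ⟨_, rfl⟩
  have hZc : Z.card + 4 * a * a = N := by
    have := Finset.card_add_card_compl Y
    rw [Fintype.card_fin, hY, ← hZ] at this
    omega
  obtain ⟨com, hcom⟩ : ∃ com : Finset (Fin N) → Finset (Fin N), ∀ A' z, z ∈ com A' ↔
      z ∈ Z ∧ ∀ x ∈ A', c s(Sum.inl x, Sum.inl z) = κ :=
    ⟨fun A' => Z.filter (fun z => ∀ x ∈ A', c s(Sum.inl x, Sum.inl z) = κ), fun A' z => Finset.mem_filter⟩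
  by_cases h1 : ∃ A' ⊆ Y, A'.card = a ∧ h ≤ (com A').card
  · obtain ⟨A', hA'Y, hA'c, hA'h⟩ := h1
    refine embed2 H A hbip _ t μ c κ (low H A) (fun u hu => (hls.1 u hu).1) A' (com A') x0
      (by omega) (by rw [hls.2, hh]; exact hA'h) ?_ ?_
    · intro x hx z hz
      rw [hcom] at hz
      refine ⟨?_, hz.2 x hx⟩
      rw [SimpleGraph.top_adj]
      intro hxz
      rw [hZ, Finset.mem_compl] at hz
      exact hz.1 (hxz ▸ hA'Y hx)
    · intro u hu D hD hDc
      rw [(hls.1 u hu).2] at hDc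
      exact hcov D (hD.trans hA'Y) hDc
  · push Not at h1
    -- bad vertices
    obtain ⟨bad, hbad⟩ : ∃ bad, bad = (Y.powersetCard a).biUnion com := ⟨_, rfl⟩
    have hbadc : bad.card ≤ 2 ^ (4 * a * a) * h := by
      have e1 : bad.card ≤ (Y.powersetCard a).card * h := by
        rw [hbad]
        apply Finset.card_biUnion_le_card_mul
        intro A' hA'
        rw [Finset.mem_powersetCard] at hA'
        exact le_of_lt (h1 A' hA'.1 hA'.2)
      refine le_trans e1 (Nat.mul_le_mul_right _ ?_)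
      have e2 : Y.powersetCard a ⊆ Y.powerset :=
        fun s hs => Finset.mem_powerset.2 (Finset.mem_powersetCard.1 hs).1
      refine le_trans (Finset.card_le_card e2) ?_
      rw [Finset.card_powerset, hY]
    obtain ⟨Zg, hZg⟩ : ∃ Zg, Zg = Z \ bad := ⟨_, rfl⟩
    have hZgc : 4 * b ≤ 3 * Zg.card := by
      have e1 : Z.card - bad.card ≤ Zg.card := by
        rw [hZg]
        exact Finset.le_card_sdiff bad Z
      omega
    -- blocks
    obtain ⟨e, he, heY⟩ : ∃ e : Fin (4 * a) × Fin a → Fin N, Function.Injective e ∧ ∀ p, e p ∈ Y := by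
      refine ⟨fun p => ((Y.equivFinOfCardEq hY).symm (finProdFinEquiv p) : {x // x ∈ Y}).1, ?_, ?_⟩
      · intro p q hpq
        exact finProdFinEquiv.injective ((Y.equivFinOfCardEq hY).symm.injective (Subtype.ext hpq))
      · intro p
        exact ((Y.equivFinOfCardEq hY).symm (finProdFinEquiv p)).2
    have hgood : ∀ z ∈ Zg, 3 * a ≤ ((Finset.univ : Finset (Fin (4 * a))).bipartiteAbove
        (fun z j => ∀ i, c s(Sum.inl (e (j, i)), Sum.inl z) ≠ κ) z).card := by
      intro z hz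
      rw [hZg, Finset.mem_sdiff] at hz
      -- the number of neighbours in colour κ
      have e1 : (Y.filter (fun x => c s(Sum.inl x, Sum.inl z) = κ)).card < a := by
        by_contra hcon
        push Not at hcon
        obtain ⟨A', hA', hA'c⟩ := Finset.exists_subset_card_eq hcon
        apply hz.2
        rw [hbad, Finset.mem_biUnion]
        refine ⟨A', ?_, ?_⟩
        · rw [Finset.mem_powersetCard]
          exact ⟨hA'.trans (Finset.filter_subset _ _), hA'c⟩
        · rw [hcom]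
          exact ⟨hz.1, fun x hx => (Finset.mem_filter.1 (hA' hx)).2⟩
      have e2 : ((Finset.univ : Finset (Fin (4 * a))).filter
          (fun j => ¬ ∀ i, c s(Sum.inl (e (j, i)), Sum.inl z) ≠ κ)).card
          ≤ (Y.filter (fun x => c s(Sum.inl x, Sum.inl z) = κ)).card := by
        have hch : ∀ j : Fin (4 * a), ∃ x : Fin N, (¬ ∀ i, c s(Sum.inl (e (j, i)), Sum.inl z) ≠ κ) →
            ∃ i, x = e (j, i) ∧ c s(Sum.inl x, Sum.inl z) = κ := by
          intro j
          by_cases hj : ∀ i, c s(Sum.inl (e (j, i)), Sum.inl z) ≠ κ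
          · exact ⟨x0, fun h => absurd hj h⟩
          · have hj' := hj
            push Not at hj'
            obtain ⟨i, hi⟩ := hj'
            exact ⟨e (j, i), fun _ => ⟨i, rfl, hi⟩⟩
        choose x hx using hch
        apply Finset.card_le_card_of_injOn x
        · intro j hj
          rw [Finset.mem_coe, Finset.mem_filter] at hj
          obtain ⟨i, hi1, hi2⟩ := hx j hj.2
          rw [Finset.mem_coe, Finset.mem_filter]
          exact ⟨hi1 ▸ heY _, hi2⟩
        · intro j hj j' hj' hjj'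
          rw [Finset.mem_coe, Finset.mem_filter] at hj hj'
          obtain ⟨i, hi1, _⟩ := hx j hj.2
          obtain ⟨i', hi1', _⟩ := hx j' hj'.2
          rw [hi1, hi1'] at hjj'
          exact (Prod.ext_iff.1 (he hjj')).1
      have e3 := Finset.card_filter_add_card_filter_not (s := (Finset.univ : Finset (Fin (4 * a))))
        (fun j => ∀ i, c s(Sum.inl (e (j, i)), Sum.inl z) ≠ κ)
      rw [Finset.card_univ, Fintype.card_fin] at e3
      show 3 * a ≤ ((Finset.univ : Finset (Fin (4 * a))).filter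
        (fun j => ∀ i, c s(Sum.inl (e (j, i)), Sum.inl z) ≠ κ)).card
      omega
    -- averaging
    have hex : ∃ j : Fin (4 * a), b ≤ (Zg.bipartiteBelow
        (fun z j => ∀ i, c s(Sum.inl (e (j, i)), Sum.inl z) ≠ κ) j).card := by
      by_contra hcon
      push Not at hcon
      have e1 := Finset.card_mul_le_card_mul (s := Zg) (t := (Finset.univ : Finset (Fin (4 * a))))
        (fun z j => ∀ i, c s(Sum.inl (e (j, i)), Sum.inl z) ≠ κ) hgood
        (fun j _ => le_of_lt (hcon j))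
      have hb1 : 1 ≤ b := by
        have := hcon ⟨0, by omega⟩
        omega
      have e2 := Finset.card_mul_le_card_mul (s := Zg) (t := (Finset.univ : Finset (Fin (4 * a))))
        (fun z j => ∀ i, c s(Sum.inl (e (j, i)), Sum.inl z) ≠ κ) hgood
        (fun j _ => Nat.le_sub_one_of_lt (hcon j))
      rw [Finset.card_univ, Fintype.card_fin] at e2
      have e3 : a * (3 * Zg.card) ≤ a * (4 * (b - 1)) := by nlinarith
      have e4 := Nat.le_of_mul_le_mul_left e3 ha
      omega
    obtain ⟨j, hj⟩ := hex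
    obtain ⟨κ', hκ'⟩ : ∃ κ' : Fin 2, ∀ x, x ≠ κ → x = κ' := by
      have hκ : κ = 0 ∨ κ = 1 := by omega
      rcases hκ with rfl | rfl
      · exact ⟨1, fun x hx => by omega⟩
      · exact ⟨0, fun x hx => by omega⟩
    have hblk : (Finset.univ.image (fun i : Fin a => e (j, i))).card = a := by
      rw [Finset.card_image_of_injective, Finset.card_univ, Fintype.card_fin]
      intro i i' hii'
      exact (Prod.ext_iff.1 (he hii')).2
    refine embed2 H A hbip _ t μ c κ' ∅ (fun u hu => absurd hu (Finset.notMem_empty u))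
      (Finset.univ.image (fun i : Fin a => e (j, i))) (Zg.bipartiteBelow
        (fun z j => ∀ i, c s(Sum.inl (e (j, i)), Sum.inl z) ≠ κ) j) x0 (by omega)
      (by rw [Finset.sdiff_empty]; omega) ?_ (fun u hu => absurd hu (Finset.notMem_empty u))
    intro x hx z hz
    rw [Finset.mem_image] at hx
    obtain ⟨i, _, rfl⟩ := hx
    unfold Finset.bipartiteBelow at hz
    rw [Finset.mem_filter] at hz
    refine ⟨?_, hκ' _ (hz.2 i)⟩
    rw [SimpleGraph.top_adj]
    intro hxz
    have hzZ := hz.1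
    rw [hZg, Finset.mem_sdiff, hZ, Finset.mem_compl] at hzZ
    exact hzZ.1 (hxz ▸ heY _)

theorem unbalanced (a : ℕ) : ∃ K : ℕ, ∀ (m : ℕ) (H : SimpleGraph (Fin m)) (A : Finset (Fin m)),
    2 ≤ m → H.Connected → (∀ u v, H.Adj u v → (u ∈ A ↔ v ∉ A)) → A.card = a →
    K * ((Aᶜ.filter (fun v => H.minDegree < H.degree v)).card + 1) ≤ Aᶜ.card →
    sInf (DSet H) = 2 * (H.minDegree - 1) + 1 := by
  have hch : ∀ δ : ℕ, ∃ R : ℕ, 1 ≤ δ → 2 * (δ - 1) + 1 ≤ 4 * a * a → ∀ (b N μ : ℕ),
      b * (2 * 2 ^ (2 * (δ - 1) + 1)) ≤ μ → ∀ Y : Finset (Fin N), R ≤ Y.card →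
      ∀ c : Sym2 (Fin N ⊕ (Finset (Fin N) × Fin μ)) → Fin 2, ∃ (κ : Fin 2) (Y' : Finset (Fin N)),
      Y' ⊆ Y ∧ Y'.card = 4 * a * a ∧ ∀ D ⊆ Y', D.card = δ →
        b ≤ (Cov (2 * (δ - 1) + 1) μ c κ D).card := by
    intro δ
    by_cases h : 1 ≤ δ ∧ 2 * (δ - 1) + 1 ≤ 4 * a * a
    · obtain ⟨R, hR⟩ := cover δ (4 * a * a) h.1 h.2
      exact ⟨R, fun _ _ => hR⟩
    · exact ⟨0, fun h1 h2 => absurd ⟨h1, h2⟩ h⟩
  choose R hR using hch
  refine ⟨(∑ δ ∈ Finset.range (a + 1), R δ) + 6 + 3 * (4 * a * a) + 3 * 2 ^ (4 * a * a), ?_⟩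
  intro m H A hm hc hbip hAc hK
  obtain ⟨h, hh⟩ : ∃ h, h = (Aᶜ.filter (fun v => H.minDegree < H.degree v)).card := ⟨_, rfl⟩
  obtain ⟨b, hb⟩ : ∃ b, b = Aᶜ.card := ⟨_, rfl⟩
  rw [← hh, ← hb] at hK
  have hK1 : (∑ δ ∈ Finset.range (a + 1), R δ) + 6 + 3 * (4 * a * a) + 3 * (2 ^ (4 * a * a) * h) ≤ b := by
    nlinarith [Nat.zero_le ((∑ δ ∈ Finset.range (a + 1), R δ) * h), Nat.zero_le (a * a * h),
      Nat.zero_le (2 ^ (4 * a * a) * h), Nat.zero_le h, Nat.zero_le (2 ^ (4 * a * a))]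
  have hδ := min_pos H hc hm
  -- the minimum degree is at most a
  have hδa : H.minDegree ≤ a := by
    obtain ⟨u, hu⟩ : ∃ u, u ∈ Aᶜ := Finset.card_pos.1 (by omega)
    refine le_trans (H.minDegree_le_degree u) ?_
    rw [← SimpleGraph.card_neighborFinset_eq_degree, ← hAc]
    apply Finset.card_le_card
    intro v hv
    rw [SimpleGraph.mem_neighborFinset] at hv
    rw [Finset.mem_compl] at hu
    by_contra hvA
    exact hu ((hbip u v hv).2 hvA)
  have ha : 1 ≤ a := le_trans hδ hδa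
  have hδ2 : 2 * (H.minDegree - 1) + 1 ≤ 4 * a * a := by
    have e1 : a ≤ a * a := Nat.le_mul_self a
    have e2 : 4 * a * a = 4 * (a * a) := by ring
    rw [e2]
    omega
  have hRb : R H.minDegree ≤ ∑ δ ∈ Finset.range (a + 1), R δ :=
    Finset.single_le_sum (f := R) (fun _ _ => Nat.zero_le _)
      (Finset.mem_range.2 (by omega))
  obtain ⟨t, ht⟩ : ∃ t, t = 2 * (H.minDegree - 1) + 1 := ⟨_, rfl⟩
  obtain ⟨μ, hμ⟩ : ∃ μ, μ = m * (2 * 2 ^ t) := ⟨_, rfl⟩
  refine closure H hm hδ (XP (⊤ : SimpleGraph (Fin (2 * (b - 1)))) t μ) (Set.range Sum.inr) ?_ ?_ ?_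
  · intro c
    obtain ⟨κ, Y, -, hYc, hcov⟩ := hR H.minDegree hδ hδ2 m (2 * (b - 1)) μ
      (by rw [hμ, ht]) Finset.univ (by rw [Finset.card_univ, Fintype.card_fin]; omega) c
    rw [← ht] at hcov
    exact key_unb H A ha hbip hAc hb.symm hh.symm t μ c κ Y hYc hcov (by omega)
  · exact hostK_not H hc A hbip b hb (by omega) t μ
  · rintro w ⟨w', rfl⟩
    rw [← ht]
    exact XP_deg _ _ _ _

end Pool.Agent.Helper58.RS
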